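import Pool.Agent.Y706.CH.Stm6
import Pool.Agent.Y195.CH.CRT

/-!
# Project CH (MP_9b502d_nt): conjugate maps on points of the projective line (helper676)
-/

set_option autoImplicit false

namespace Pool.Agent.Y676.CH

open Pool.Agent.W277.UH Pool.Agent.Y706.CH Pool.Agent.Y195.CH Finset Polynomial

universe u

section

variable {K : Type u} [Field K]

/-- the vector of a point -/
def vec : Option K → K × K
  | none => (1, 0)
  | some x => (x, 1)

lemma vec_ne (z : Option K) : vec z ≠ 0 := by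
  intro h
  cases z with
  | none => exact one_ne_zero (congrArg Prod.fst h)
  | some x => exact one_ne_zero (congrArg Prod.snd h)

lemma pt_vec (z : Option K) : pt (vec z) = z := by
  cases z with
  | none => exact pt_none _ rfl
  | some x =>
    refine (pt_some ((x, 1) : K × K) one_ne_zero).trans ?_
    show some (x / 1) = some x
    rw [div_one]

lemma pt_smul (t : K) (ht : t ≠ 0) (X : K × K) : pt (t • X) = pt X := by
  by_cases h : X.2 = 0
  · rw [pt_none X h, pt_none]
    rw [Prod.smul_snd, h, smul_zero]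
  · rw [pt_some X h, pt_some _ (by rw [Prod.smul_snd, smul_eq_mul]; exact mul_ne_zero ht h)]
    rw [Prod.smul_snd, Prod.smul_fst, smul_eq_mul, smul_eq_mul, mul_div_mul_left _ _ ht]

lemma exists_smul (X : K × K) (hX : X ≠ 0) : ∃ t : K, t ≠ 0 ∧ X = t • vec (pt X) := by
  by_cases h : X.2 = 0
  · refine ⟨X.1, fun h1 => hX (Prod.ext h1 h), ?_⟩
    rw [pt_none X h]
    refine Prod.ext ?_ ?_
    · show X.1 = X.1 * 1
      rw [mul_one]
    · show X.2 = X.1 * 0
      rw [h, mul_zero]
  · refine ⟨X.2, h, ?_⟩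
    rw [pt_some X h]
    refine Prod.ext ?_ ?_
    · show X.1 = X.2 * (X.1 / X.2)
      rw [mul_div_cancel₀ _ h]
    · show X.2 = X.2 * 1
      rw [mul_one]

/-- the linear map -/
def Ph (a b c e : K) (X : K × K) : K × K := (a * X.1 + b * X.2, c * X.1 + e * X.2)

lemma Ph_smul (a b c e t : K) (X : K × K) : Ph a b c e (t • X) = t • Ph a b c e X := by
  refine Prod.ext ?_ ?_
  · show a * (t * X.1) + b * (t * X.2) = t * (a * X.1 + b * X.2)
    ring
  · show c * (t * X.1) + e * (t * X.2) = t * (c * X.1 + e * X.2)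
    ring

lemma Ph_inj (a b c e : K) (h : a * e - b * c ≠ 0) (X Y : K × K)
    (hXY : Ph a b c e X = Ph a b c e Y) : X = Y := by
  have h1 : a * X.1 + b * X.2 = a * Y.1 + b * Y.2 := congrArg Prod.fst hXY
  have h2 : c * X.1 + e * X.2 = c * Y.1 + e * Y.2 := congrArg Prod.snd hXY
  refine Prod.ext ?_ ?_
  · apply mul_left_cancel₀ h
    linear_combination e * h1 - b * h2
  · apply mul_left_cancel₀ h
    linear_combination a * h2 - c * h1

lemma Ph_ne (a b c e : K) (h : a * e - b * c ≠ 0) (X : K × K) (hX : X ≠ 0) :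
    Ph a b c e X ≠ 0 := by
  intro h1
  apply hX
  apply Ph_inj a b c e h
  rw [h1]
  refine Prod.ext ?_ ?_
  · show (0 : K) = a * 0 + b * 0
    ring
  · show (0 : K) = c * 0 + e * 0
    ring

lemma key (d : ℕ) (a b c e s : K) (p q u : K[X]) (hp : p.natDegree ≤ d) (hq : q.natDegree ≤ d)
    (x y : K)
    (h : ∑ i ∈ Finset.range (d + 1), C (u.coeff i) * (C a * X + C b) ^ i *
      (C c * X + C e) ^ (d - i) = C s * (C x * p + C y * q)) (Z : K × K) :
    hev d u (Ph a b c e Z) = s * (x * hev d p Z + y * hev d q Z) := by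
  have h' : hc d u (C a * X + C b) (C c * X + C e) = C s * (C x * p + C y * q) := by
    rw [← h]
    unfold hc hev
    refine Finset.sum_congr rfl fun i _ => ?_
    rw [coeff_map]
  by_cases hZ : Z.2 = 0
  · have hZ' : Z = (Z.1, 0) := Prod.ext rfl hZ
    have e1 : Ph a b c e Z = Z.1 • ((a, c) : K × K) := by
      refine Prod.ext ?_ ?_
      · show a * Z.1 + b * Z.2 = Z.1 * a
        rw [hZ]
        ring
      · show c * Z.1 + e * Z.2 = Z.1 * c
        rw [hZ]
        ring
    have h1 := hc_coeff d 1 u (C a * X + C b) (C c * X + C e)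
      (natDegree_linear_le) (natDegree_linear_le)
    have h2 : ((C a * X + C b : K[X])).coeff 1 = a := by simp
    have h3 : ((C c * X + C e : K[X])).coeff 1 = c := by simp
    rw [h2, h3, mul_one, h', coeff_C_mul, coeff_add, coeff_C_mul, coeff_C_mul] at h1
    rw [e1, hev_smul, ← h1, hZ', hev_zero, hev_zero]
    ring
  · have h1 : Z = Z.2 • ((Z.1 / Z.2, 1) : K × K) := by
      refine Prod.ext ?_ ?_
      · show Z.1 = Z.2 * (Z.1 / Z.2)
        rw [mul_div_cancel₀ _ hZ]
      · show Z.2 = Z.2 * 1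
        rw [mul_one]
    rw [hev_eval d p hp Z hZ, hev_eval d q hq Z hZ]
    conv_lhs => rw [h1]
    rw [Ph_smul, hev_smul]
    have h2 := hc_eval d u (C a * X + C b) (C c * X + C e) (Z.1 / Z.2)
    rw [h'] at h2
    simp only [eval_mul, eval_add, eval_C, eval_X] at h2
    have h3 : Ph a b c e ((Z.1 / Z.2, 1) : K × K) =
        (a * (Z.1 / Z.2) + b, c * (Z.1 / Z.2) + e) := by
      refine Prod.ext ?_ ?_
      · show a * (Z.1 / Z.2) + b * 1 = a * (Z.1 / Z.2) + b
        rw [mul_one]
      · show c * (Z.1 / Z.2) + e * 1 = c * (Z.1 / Z.2) + e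
        rw [mul_one]
    rw [h3, ← h2]
    ring

end

theorem t_CNJ : S_CNJ.{u} := by
  intro M _ _ d hd a b c e hdet s hs p q u w hpq hco huw hco' h1 h2
  have hp : p.natDegree ≤ d := by rw [← hpq]; exact le_max_left _ _
  have hq : q.natDegree ≤ d := by rw [← hpq]; exact le_max_right _ _
  have hK : ∀ Z : M × M, bK d u w (Ph a b c e Z) = s • Ph a b c e (bK d p q Z) := by
    intro Z
    refine Prod.ext ?_ ?_
    · exact key d a b c e s p q u hp hq a b h1 Z
    · exact key d a b c e s p q w hp hq c e h2 Z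
  have hφ : ∀ Z : M × M, Z ≠ 0 → pt (Ph a b c e Z) = pt (Ph a b c e (vec (pt Z))) := by
    intro Z hZ
    obtain ⟨t, ht, h3⟩ := exists_smul Z hZ
    conv_lhs => rw [h3]
    rw [Ph_smul, pt_smul t ht]
  refine ⟨fun z => pt (Ph a b c e (vec z)), ?_, ?_⟩
  · intro z z' hzz
    simp only at hzz
    obtain ⟨t, ht, h3⟩ := exists_smul _ (Ph_ne a b c e hdet _ (vec_ne z))
    obtain ⟨t', ht', h4⟩ := exists_smul _ (Ph_ne a b c e hdet _ (vec_ne z'))
    rw [← hzz] at h4
    have h5 : Ph a b c e (vec z) = Ph a b c e ((t * t'⁻¹) • vec z') := by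
      rw [Ph_smul, h4, h3, smul_smul, mul_assoc, inv_mul_cancel₀ ht', mul_one, pt_smul t ht,
        pt_vec]
    have h6 := Ph_inj a b c e hdet _ _ h5
    rw [← pt_vec z, h6, pt_smul _ (mul_ne_zero ht (inv_ne_zero ht')), pt_vec]
  · intro z
    obtain ⟨g1, g2⟩ := t_PT M d hd p q hpq hco (vec z) (vec_ne z)
    obtain ⟨_, g4⟩ := t_PT M d hd u w huw hco' (Ph a b c e (vec z))
      (Ph_ne a b c e hdet _ (vec_ne z))
    rw [pt_vec] at g2
    show pt (Ph a b c e (vec (ratP1 p q d z))) = ratP1 u w d (pt (Ph a b c e (vec z)))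
    rw [g4, hK, pt_smul s hs, g2, ← hφ _ g1]

end Pool.Agent.Y676.CH
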